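import Mathlib

/-!
# Product Borsuk-Ulam theorem modulo 3 with a secondary class: definitions and statement

Section 4 of the plan `OPP_PLAN.md`.
-/

set_option autoImplicit false

open scoped Uniformity

namespace Pool.OPP

/-- the unit sphere of `ℂ^n` -/
abbrev CSph (n : ℕ) := Metric.sphere (0 : EuclideanSpace ℂ (Fin n)) 1

/-- the primitive cube root of unity `exp (2 π i / 3)` -/
noncomputable def om : ℂ := Complex.exp (2 * Real.pi * Complex.I / 3)

theorem norm_om : ‖om‖ = 1 := by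
  unfold om
  have h : (2 * Real.pi * Complex.I / 3 : ℂ) = ((2 * Real.pi / 3 : ℝ) : ℂ) * Complex.I := by
    push_cast; ring
  rw [h, Complex.norm_exp_ofReal_mul_I]

theorem om_pow_three : om ^ 3 = 1 := by
  unfold om
  rw [← Complex.exp_nat_mul]
  have h : ((3 : ℕ) : ℂ) * (2 * Real.pi * Complex.I / 3) = 2 * Real.pi * Complex.I := by
    push_cast; ring
  rw [h, Complex.exp_two_pi_mul_I]

/-- multiplication by `om` on the sphere -/
noncomputable def rot {n : ℕ} (v : CSph n) : CSph n :=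
  ⟨om • (v : EuclideanSpace ℂ (Fin n)), by
    rw [mem_sphere_zero_iff_norm, norm_smul, norm_om, one_mul, norm_eq_of_mem_sphere]⟩

@[simp] theorem coe_rot {n : ℕ} (v : CSph n) :
    (rot v : EuclideanSpace ℂ (Fin n)) = om • (v : EuclideanSpace ℂ (Fin n)) := rfl

/-- the base space: a product of spheres -/
abbrev XX (N : ℕ → ℕ) := (k : ℕ) → CSph (N k)

/-- multiplication of the coordinate `j` by `om` -/
noncomputable def tt {N : ℕ → ℕ} (j : ℕ) (x : XX N) : XX N := Function.update x j (rot (x j))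

/-- the lift in `{-1,0,1}` of `l y - l x` -/
def la {X : Type} (l : X → ZMod 3) (x y : X) : ℤ := (l y - l x).valMinAbs

/-- the 2-cocycle `(a(x,y) + a(y,z) - a(x,z)) / 3` of a label function, with values in
`{-1,0,1}` -/
def e3 {X : Type} (l : X → ZMod 3) (x y z : X) : ℤ := (la l x y + la l y z - la l x z) / 3

/-- The topological theorem TT. -/
def TTStmt : Prop :=
  ∀ (N : ℕ → ℕ) (J : Finset ℕ) (ι : Type) [Fintype ι] (ty : ι → ℕ),
    (∀ j, 1 ≤ N j) → 3 ≤ N 0 → 0 ∈ J → (∀ i, ty i ∈ J ∧ ty i ≠ 0) →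
    (∀ j, 2 * Fintype.card {i // ty i = j} + 1 ≤ N j) →
    ∀ g : ι → XX N → ℂ, (∀ i, Continuous (g i)) →
      (∀ i, ∀ j ∈ J, ∀ x, g i (tt j x) = (if j = ty i then om else 1) * g i x) →
    ∀ l0 : XX N → ZMod 3, (∀ j ∈ J, ∀ x, l0 (tt j x) = l0 x + if j = 0 then 1 else 0) →
    ∀ (U : Set (XX N × XX N)) (η : ℝ), U ∈ 𝓤 (XX N) → 0 < η →
    ∀ bt : XX N → XX N → ZMod 3, (∀ j ∈ J, ∀ x y, bt (tt j x) (tt j y) = bt x y) →
      ¬ ∀ x y z : XX N, (x, y) ∈ U → (y, z) ∈ U → (x, z) ∈ U →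
        (∀ i, ‖g i x‖ < η ∧ ‖g i y‖ < η ∧ ‖g i z‖ < η) →
        bt x y + bt y z - bt x z = (e3 l0 x y z : ZMod 3)

end Pool.OPP
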