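import Pool.Agent.H7.OPP.Stmts

set_option autoImplicit false

/-!
# OPP, module EL: bounded weighted composition operators
-/

namespace Pool.OPP

open scoped Topology ComplexConjugate

theorem EL_split (k : ℕ) (u : JI) : jn (low k u) (high k u) = u := by
  apply Prod.ext
  · rfl
  · ext i
    simp only [jn, low, high, Finset.mem_union, Finset.mem_filter]
    constructor
    · rintro (h | h)
      · exact h.1
      · exact h.1
    · intro h
      rcases lt_or_ge i k with h1 | h1
      · exact Or.inl ⟨h, h1⟩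
      · exact Or.inr ⟨h, h1⟩

theorem EL_sub {k : ℕ} {t : JI} (ht : t ∈ JJ k) : t.2 ⊆ Finset.range k := by
  unfold JJ at ht
  rw [Finset.mem_product] at ht
  exact Finset.mem_powerset.1 ht.2

theorem EL_low_union {k : ℕ} {t : JI} (ht : t ∈ JJ k) (u : JI) :
    low k (jn t (high k u)) = t := by
  apply Prod.ext
  · rfl
  · ext i
    simp only [jn, low, high, Finset.mem_union, Finset.mem_filter]
    constructor
    · rintro ⟨h | h, h1⟩
      · exact h
      · omega
    · intro h
      exact ⟨Or.inl h, Finset.mem_range.1 (EL_sub ht h)⟩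

theorem EL_high_union {k : ℕ} {t : JI} (ht : t ∈ JJ k) (u : JI) :
    high k (jn t (high k u)) = high k u := by
  ext i
  simp only [jn, high, Finset.mem_union, Finset.mem_filter]
  constructor
  · rintro ⟨h | h, h1⟩
    · have := Finset.mem_range.1 (EL_sub ht h)
      omega
    · exact h
  · intro h
    exact ⟨Or.inr h, h.2⟩

/-- the function of the operator -/
noncomputable def EL_1 (k : ℕ) (s t : JI) (φ : Finset ℕ → ℂ) (ξ : HH) :
    JI → ℂ :=
  fun v => if low k v = s then φ (high k v) * (ξ : JI → ℂ) (jn t (high k v)) else 0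

theorem EL_sum {k : ℕ} {s t : JI} (ht : t ∈ JJ k)
    {φ : Finset ℕ → ℂ} {C : ℝ} (hφ : ∀ T, ‖φ T‖ ≤ C) (ξ : HH) (F : Finset JI) :
    ∑ v ∈ F, ‖EL_1 k s t φ ξ v‖ ^ (2 : ENNReal).toReal ≤ (C * ‖ξ‖) ^ (2 : ENNReal).toReal := by
  classical
  have hC : 0 ≤ C := (norm_nonneg _).trans (hφ ∅)
  have h2 : (2 : ENNReal).toReal = 2 := by simp
  have hpos : 0 < (2 : ENNReal).toReal := by rw [h2]; norm_num
  have h1 := lp.sum_rpow_le_norm_rpow hpos ξ
    ((F.filter fun v => low k v = s).image fun v => jn t (high k v))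
  rw [Finset.sum_image] at h1
  · have h3 : ∑ v ∈ F, ‖EL_1 k s t φ ξ v‖ ^ (2 : ENNReal).toReal =
        ∑ v ∈ F.filter fun v => low k v = s,
          ‖φ (high k v) * (ξ : JI → ℂ) (jn t (high k v))‖ ^ (2 : ENNReal).toReal := by
      rw [Finset.sum_filter]
      refine Finset.sum_congr rfl fun v _ => ?_
      unfold EL_1
      split_ifs with h
      · rfl
      · rw [norm_zero, Real.zero_rpow hpos.ne']
    rw [h3, Real.mul_rpow hC (norm_nonneg _)]
    calc ∑ v ∈ F.filter fun v => low k v = s,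
          ‖φ (high k v) * (ξ : JI → ℂ) (jn t (high k v))‖ ^ (2 : ENNReal).toReal
        ≤ ∑ v ∈ F.filter fun v => low k v = s, C ^ (2 : ENNReal).toReal *
          ‖(ξ : JI → ℂ) (jn t (high k v))‖ ^ (2 : ENNReal).toReal := by
          refine Finset.sum_le_sum fun v _ => ?_
          rw [norm_mul, Real.mul_rpow (norm_nonneg _) (norm_nonneg _)]
          refine mul_le_mul_of_nonneg_right ?_ (Real.rpow_nonneg (norm_nonneg _) _)
          exact Real.rpow_le_rpow (norm_nonneg _) (hφ _) hpos.le
      _ = C ^ (2 : ENNReal).toReal * ∑ v ∈ F.filter fun v => low k v = s,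
          ‖(ξ : JI → ℂ) (jn t (high k v))‖ ^ (2 : ENNReal).toReal := by
          rw [Finset.mul_sum]
      _ ≤ _ := mul_le_mul_of_nonneg_left h1 (Real.rpow_nonneg hC _)
  · intro v hv v' hv' h
    have hv1 := (Finset.mem_filter.1 (Finset.mem_coe.1 hv)).2
    have hv2 := (Finset.mem_filter.1 (Finset.mem_coe.1 hv')).2
    have h3 : high k v = high k v' := by
      have := congrArg (high k) h
      simp only [EL_high_union ht] at this
      exact this
    rw [← EL_split k v, ← EL_split k v', hv1, hv2, h3]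

theorem sEl : SEl := by
  intro k s t _ ht φ C hφ
  have hC : 0 ≤ C := (norm_nonneg _).trans (hφ ∅)
  have hpos : 0 < (2 : ENNReal).toReal := by simp
  let L : HH →ₗ[ℂ] HH :=
    { toFun := fun ξ => ⟨EL_1 k s t φ ξ, memℓp_gen' (EL_sum ht hφ ξ)⟩
      map_add' := fun ξ η => by
        apply lp.ext
        funext v
        show EL_1 k s t φ (ξ + η) v = EL_1 k s t φ ξ v + EL_1 k s t φ η v
        unfold EL_1
        split_ifs
        · rw [lp.coeFn_add, Pi.add_apply, mul_add]
        · rw [add_zero]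
      map_smul' := fun c ξ => by
        apply lp.ext
        funext v
        show EL_1 k s t φ (c • ξ) v = c • EL_1 k s t φ ξ v
        unfold EL_1
        split_ifs
        · rw [lp.coeFn_smul, Pi.smul_apply, smul_eq_mul, smul_eq_mul]
          ring
        · rw [smul_zero] }
  have hL : ∀ ξ, ‖L ξ‖ ≤ C * ‖ξ‖ := fun ξ =>
    lp.norm_le_of_forall_sum_le hpos (mul_nonneg hC (norm_nonneg _)) (EL_sum ht hφ ξ)
  have hex : ∃ W : BH, ∀ (ξ : HH) (v : JI), (W ξ : JI → ℂ) v =
      if low k v = s then φ (high k v) * (ξ : JI → ℂ) (jn t (high k v)) else 0 :=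
    ⟨L.mkContinuous C hL, fun ξ v => rfl⟩
  have h1 : ∀ (ξ : HH) (v : JI), (el k s t φ ξ : JI → ℂ) v =
      if low k v = s then φ (high k v) * (ξ : JI → ℂ) (jn t (high k v)) else 0 :=
    Classical.epsilon_spec hex
  refine ⟨h1, ContinuousLinearMap.opNorm_le_bound _ hC fun ξ => ?_⟩
  have h2 : el k s t φ ξ = L ξ := by
    apply lp.ext
    funext v
    rw [h1]
    rfl
  rw [h2]
  exact hL ξ

end Pool.OPP
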